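import Pool.Agent.U180.NG.Stm

/-!
# Project NG, package HALF: one half of the circle from the dyadic blocks
-/

set_option autoImplicit false

namespace Pool.Agent.U559.NG

open Pool.Agent.U180.NG Finset
open Pool.Agent.H469R2.NK (e norm_e)

lemma triv (f : ℕ → ℝ) (N : ℕ) : ‖∑ n ∈ range N, e (f n)‖ ≤ N := by
  refine (norm_sum_le _ _).trans ?_
  simp [norm_e]

lemma root4 (x : ℝ) (hx : 0 < x) : ∃ τ : ℝ, 0 < τ ∧ τ ^ 4 = x := by
  refine ⟨x ^ (1 / 4 : ℝ), Real.rpow_pos_of_pos hx _, ?_⟩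
  rw [← Real.rpow_natCast, ← Real.rpow_mul hx.le]
  norm_num

lemma blk (h : S_BLK) {k N : ℕ} {R T a : ℝ} (hk : 1 ≤ k) (hT : 1 ≤ T) (hTR : T ≤ R)
    (ha : 0 ≤ a) (h1 : R - 2 * T ≤ a) (h2 : a + N ≤ R - T + 1) {s ρ τ : ℝ} (hs : 0 < s)
    (hρ : 0 < ρ) (hτ : 0 < τ) (hs2 : s ^ 2 = k) (hρ4 : ρ ^ 4 = R) (hτ4 : τ ^ 4 = T) :
    ‖∑ n ∈ range N, e (k * Real.sqrt (R ^ 2 - (a + n) ^ 2))‖ ≤
      90 * s * ρ * τ + 30 * (s ^ 2 * ρ ^ 2 * (1 / τ ^ 2)) := by
  have hb := h k N R T a hk hT hTR ha h1 h2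
  have e1 : Real.sqrt (R / T) = ρ ^ 2 / τ ^ 2 := by
    have : R / T = (ρ ^ 2 / τ ^ 2) ^ 2 := by
      rw [← hρ4, ← hτ4]; field_simp
    rw [this]
    exact Real.sqrt_sq (by positivity)
  have e2 : Real.sqrt (k : ℝ) = s := by
    rw [← hs2]; exact Real.sqrt_sq hs.le
  have e3 : T ^ (3 / 4 : ℝ) = τ ^ 3 := by
    rw [← hτ4, ← Real.rpow_natCast, ← Real.rpow_natCast, ← Real.rpow_mul hτ.le]
    norm_num
  have e4 : R ^ (1 / 4 : ℝ) = ρ := by
    rw [← hρ4, ← Real.rpow_natCast, ← Real.rpow_mul hρ.le]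
    norm_num
  rw [e1, e2, e3, e4] at hb
  refine hb.trans ?_
  have hτρ : τ ≤ ρ := by
    have : τ ^ 4 ≤ ρ ^ 4 := by rw [hτ4, hρ4]; exact hTR
    exact (pow_le_pow_iff_left₀ hτ.le hρ.le (by norm_num)).mp this
  have hk1 : (1 : ℝ) ≤ s ^ 2 := by rw [hs2]; exact_mod_cast hk
  have hX : 1 ≤ s ^ 2 * (ρ ^ 2 / τ ^ 2) := by
    have : 1 ≤ ρ ^ 2 / τ ^ 2 := by
      rw [one_le_div (by positivity)]
      exact pow_le_pow_left₀ hτ.le hτρ 2
    nlinarith
  rw [← hs2]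
  calc 10 * (s ^ 2 * (ρ ^ 2 / τ ^ 2) + 2) * (3 * τ ^ 3 / (s * ρ) + 1)
      ≤ 10 * (3 * (s ^ 2 * (ρ ^ 2 / τ ^ 2))) * (3 * τ ^ 3 / (s * ρ) + 1) := by
        apply mul_le_mul_of_nonneg_right _ (by positivity)
        linarith
    _ = 90 * s * ρ * τ + 30 * (s ^ 2 * ρ ^ 2 * (1 / τ ^ 2)) := by
        field_simp
        ring

lemma split (f : ℕ → ℂ) {M N : ℕ} (hM : M ≤ N) {A B : ℝ}
    (h1 : ‖∑ n ∈ range M, f n‖ ≤ A) (h2 : ‖∑ n ∈ range (N - M), f (M + n)‖ ≤ B) :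
    ‖∑ n ∈ range N, f n‖ ≤ A + B := by
  have : N = M + (N - M) := by omega
  rw [this, Finset.sum_range_add]
  exact (norm_add_le _ _).trans (add_le_add h1 h2)

lemma claim (h : S_BLK) {k : ℕ} {R s ρ : ℝ} (hk : 1 ≤ k) (hR : 1 ≤ R) (hs : 0 < s) (hρ : 0 < ρ)
    (hs2 : s ^ 2 = k) (hρ4 : ρ ^ 4 = R) (j : ℕ) : ∀ (N : ℕ) (a : ℝ), 0 ≤ a →
    a + N ≤ R - k + 1 → R - 2 ^ j * k ≤ a → ∀ τ : ℝ, 0 < τ → τ ^ 4 = 2 ^ j * k →
    ‖∑ n ∈ range N, e (k * Real.sqrt (R ^ 2 - (a + n) ^ 2))‖ ≤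
      600 * s * ρ * τ + 120 * (s ^ 2 * ρ ^ 2) * (1 / s - 1 / τ ^ 2) := by
  have hk1 : (1 : ℝ) ≤ k := by exact_mod_cast hk
  have hs1 : 1 ≤ s := by nlinarith
  have hρ1 : 1 ≤ ρ := by
    have : (1 : ℝ) ^ 4 ≤ ρ ^ 4 := by rw [hρ4]; simpa using hR
    exact (pow_le_pow_iff_left₀ zero_le_one hρ.le (by norm_num)).mp this
  induction j with
  | zero =>
    intro N a ha h1 h2 τ hτ hτ4
    rw [pow_zero, one_mul] at h2 hτ4
    have hτs : τ ^ 2 = s := by
      have : (τ ^ 2) ^ 2 = s ^ 2 := by rw [hs2, ← hτ4]; ring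
      exact (pow_left_inj₀ (by positivity) hs.le (by norm_num)).mp this
    have hτ1 : 1 ≤ τ := by nlinarith
    have hN : (N : ℝ) ≤ 1 := by linarith
    refine (triv _ _).trans (hN.trans ?_)
    rw [hτs, sub_self, mul_zero, add_zero]
    have h3 : 1 ≤ s * ρ := by nlinarith
    have h4 : 1 ≤ s * ρ * τ := by nlinarith
    nlinarith
  | succ j ih =>
    intro N a ha h1 h2 τ hτ hτ4
    have hT0 : (0 : ℝ) < 2 ^ j * k := by positivity
    obtain ⟨σ, hσ, hσ4⟩ := root4 _ hT0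
    have hT1 : (1 : ℝ) ≤ 2 ^ j * k := by
      have : (1 : ℝ) ≤ 2 ^ j := one_le_pow₀ (by norm_num)
      nlinarith
    have h24 : τ ^ 4 = 2 * σ ^ 4 := by rw [hτ4, hσ4]; ring
    have hq : 1.18 * σ ≤ τ := by
      have : (1.18 * σ) ^ 4 ≤ τ ^ 4 := by
        rw [h24]
        have : 0 < σ ^ 4 := by positivity
        nlinarith
      exact (pow_le_pow_iff_left₀ (by positivity) hτ.le (by norm_num)).mp this
    have hq2 : 1.41 * σ ^ 2 ≤ τ ^ 2 := by
      have : (1.41 * σ ^ 2) ^ 2 ≤ (τ ^ 2) ^ 2 := by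
        have e1 : (τ ^ 2) ^ 2 = 2 * σ ^ 4 := by rw [← h24]; ring
        rw [e1]
        have : 0 < σ ^ 4 := by positivity
        nlinarith
      exact (pow_le_pow_iff_left₀ (by positivity) (by positivity) (by norm_num)).mp this
    have hinv : 1 / τ ^ 2 ≤ (3 / 4) * (1 / σ ^ 2) := by
      have e1 : (3 / 4) * (1 / σ ^ 2) = 1 / ((4 / 3) * σ ^ 2) := by field_simp
      rw [e1]
      apply one_div_le_one_div_of_le (by positivity)
      have : 0 < σ ^ 2 := by positivity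
      nlinarith
    have hSR : 0 < s * ρ := by positivity
    have hSR2 : 0 < s ^ 2 * ρ ^ 2 := by positivity
    have hmain : 90 * s * ρ * σ + 30 * (s ^ 2 * ρ ^ 2 * (1 / σ ^ 2)) +
        (600 * s * ρ * σ + 120 * (s ^ 2 * ρ ^ 2) * (1 / s - 1 / σ ^ 2)) ≤
        600 * s * ρ * τ + 120 * (s ^ 2 * ρ ^ 2) * (1 / s - 1 / τ ^ 2) := by
      have a1 : s * ρ * (1.18 * σ) ≤ s * ρ * τ := mul_le_mul_of_nonneg_left hq hSR.le
      have a2 : s ^ 2 * ρ ^ 2 * (1 / τ ^ 2) ≤ s ^ 2 * ρ ^ 2 * ((3 / 4) * (1 / σ ^ 2)) :=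
        mul_le_mul_of_nonneg_left hinv hSR2.le
      have a3 : 0 < s * ρ * σ := by positivity
      nlinarith
    have hmono : 600 * s * ρ * σ + 120 * (s ^ 2 * ρ ^ 2) * (1 / s - 1 / σ ^ 2) ≤
        600 * s * ρ * τ + 120 * (s ^ 2 * ρ ^ 2) * (1 / s - 1 / τ ^ 2) := by
      refine le_trans ?_ hmain
      have : 0 ≤ 90 * s * ρ * σ + 30 * (s ^ 2 * ρ ^ 2 * (1 / σ ^ 2)) := by positivity
      linarith
    by_cases hc : R - 2 ^ j * k ≤ a
    · exact (ih N a ha h1 hc σ hσ hσ4).trans hmono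
    · push Not at hc
      have hTR : (2 : ℝ) ^ j * k ≤ R := by linarith
      set F : ℕ := ⌊R - 2 ^ j * k - a⌋₊ + 1 with hF
      have hF1 : (F : ℝ) ≤ R - 2 ^ j * k - a + 1 := by
        rw [hF]; push_cast
        have := Nat.floor_le (show (0 : ℝ) ≤ R - 2 ^ j * k - a by linarith)
        linarith
      have hF2 : R - 2 ^ j * k - a < F := by
        rw [hF]; push_cast
        exact Nat.lt_floor_add_one _
      have h22 : R - 2 * (2 ^ j * k) ≤ a := by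
        rw [pow_succ] at h2; linarith
      by_cases hNF : N ≤ F
      · have hNF' : (N : ℝ) ≤ F := by exact_mod_cast hNF
        refine (blk h hk hT1 hTR ha h22 (by linarith) hs hρ hσ hs2 hρ4 hσ4).trans ?_
        refine le_trans ?_ hmain
        have hs' : s ≤ σ ^ 2 := by
          have : s ^ 2 ≤ (σ ^ 2) ^ 2 := by
            have e1 : (σ ^ 2) ^ 2 = 2 ^ j * k := by rw [← hσ4]; ring
            rw [e1, hs2]
            have : (1 : ℝ) ≤ 2 ^ j := one_le_pow₀ (by norm_num)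
            nlinarith
          exact (pow_le_pow_iff_left₀ hs.le (by positivity) (by norm_num)).mp this
        have h5 : 0 ≤ 1 / s - 1 / σ ^ 2 := by
          have := one_div_le_one_div_of_le hs hs'
          linarith
        have : 0 ≤ 600 * s * ρ * σ + 120 * (s ^ 2 * ρ ^ 2) * (1 / s - 1 / σ ^ 2) := by
          have : 0 ≤ 120 * (s ^ 2 * ρ ^ 2) * (1 / s - 1 / σ ^ 2) := by positivity
          have : 0 < 600 * s * ρ * σ := by positivity
          linarith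
        linarith
      · push Not at hNF
        refine le_trans (split _ hNF.le ?_ ?_) hmain
        · exact blk h hk hT1 hTR ha h22 (by linarith) hs hρ hσ hs2 hρ4 hσ4
        · have h6 := ih (N - F) (a + F) (by positivity) ?_ (by linarith) σ hσ hσ4
          · refine le_trans (le_of_eq ?_) h6
            congr 1
            apply Finset.sum_congr rfl
            intro n _
            push_cast
            rw [add_assoc]
          · rw [Nat.cast_sub hNF.le]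
            linarith

theorem t_HALF (h : S_BLK) : S_HALF := by
  refine ⟨2000, by norm_num, ?_⟩
  intro k N R a hk hR ha hN
  have hk1 : (1 : ℝ) ≤ k := by exact_mod_cast hk
  by_cases hRk : R ≤ k
  · have h1 : (N : ℝ) ≤ 2 * R := by linarith
    have h2 : R ≤ Real.sqrt (k * R) := by
      apply Real.le_sqrt_of_sq_le
      nlinarith
    refine (triv _ _).trans ?_
    nlinarith
  push Not at hRk
  obtain ⟨ρ, hρ, hρ4⟩ := root4 R (by linarith)
  have hs : 0 < Real.sqrt (k : ℝ) := Real.sqrt_pos.mpr (by linarith)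
  obtain ⟨s, hs_def⟩ : ∃ s, s = Real.sqrt (k : ℝ) := ⟨_, rfl⟩
  rw [← hs_def] at hs
  have hs2 : s ^ 2 = k := by rw [hs_def]; exact Real.sq_sqrt (by linarith)
  have hroot : Real.sqrt (k * R) = s * ρ ^ 2 := by
    have : (k : ℝ) * R = (s * ρ ^ 2) ^ 2 := by rw [← hs2, ← hρ4]; ring
    rw [this]; exact Real.sqrt_sq (by positivity)
  have hkr : (k : ℝ) ≤ Real.sqrt (k * R) := by
    apply Real.le_sqrt_of_sq_le
    nlinarith
  obtain ⟨j1, hj1⟩ := exists_nat_pow_near (show (1 : ℝ) ≤ R / k by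
    rw [one_le_div (by linarith)]; exact hRk.le) (show (1 : ℝ) < 2 by norm_num)
  have hJ1 : R ≤ 2 ^ (j1 + 1) * k := by
    have := hj1.2
    rw [div_lt_iff₀ (by linarith)] at this
    exact this.le
  have hJ2 : (2 : ℝ) ^ (j1 + 1) * k ≤ 2 * R := by
    have := hj1.1
    rw [le_div_iff₀ (by linarith)] at this
    rw [pow_succ]; linarith
  obtain ⟨τ, hτ, hτ4⟩ := root4 ((2 : ℝ) ^ (j1 + 1) * k) (by positivity)
  have hτρ : τ ≤ 1.2 * ρ := by
    have : τ ^ 4 ≤ (1.2 * ρ) ^ 4 := by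
      have e1 : (1.2 * ρ) ^ 4 = 2.0736 * R := by rw [← hρ4]; ring
      rw [hτ4, e1]
      linarith
    exact (pow_le_pow_iff_left₀ hτ.le (by positivity) (by norm_num)).mp this
  have hpot : 600 * s * ρ * τ + 120 * (s ^ 2 * ρ ^ 2) * (1 / s - 1 / τ ^ 2) ≤
      840 * (s * ρ ^ 2) := by
    have a1 : s * ρ * τ ≤ s * ρ * (1.2 * ρ) := mul_le_mul_of_nonneg_left hτρ (by positivity)
    have a2 : 120 * (s ^ 2 * ρ ^ 2) * (1 / s) = 120 * (s * ρ ^ 2) := by field_simp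
    have a3 : 0 ≤ 120 * (s ^ 2 * ρ ^ 2) * (1 / τ ^ 2) := by positivity
    nlinarith
  have key : ∀ (M : ℕ) (b : ℝ), 0 ≤ b → b + M ≤ R - k + 1 →
      ‖∑ n ∈ range M, e (k * Real.sqrt (R ^ 2 - (b + n) ^ 2))‖ ≤ 840 * (s * ρ ^ 2) := by
    intro M b hb hM
    exact (claim h hk hR hs hρ hs2 hρ4 (j1 + 1) M b hb hM (by linarith) τ hτ hτ4).trans hpot
  rw [hroot]
  rw [hroot] at hkr
  by_cases hc : R - k ≤ a
  · refine (triv _ _).trans ?_
    nlinarith
  push Not at hc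
  set F : ℕ := ⌊R - k - a⌋₊ + 1 with hF
  have hF1 : (F : ℝ) ≤ R - k - a + 1 := by
    rw [hF]; push_cast
    have := Nat.floor_le (show (0 : ℝ) ≤ R - k - a by linarith)
    linarith
  have hF2 : R - k - a < F := by
    rw [hF]; push_cast
    exact Nat.lt_floor_add_one _
  by_cases hNF : N ≤ F
  · have hNF' : (N : ℝ) ≤ F := by exact_mod_cast hNF
    refine (key N a ha (by linarith)).trans ?_
    have : 0 < s * ρ ^ 2 := by positivity
    linarith
  · push Not at hNF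
    refine (split _ hNF.le (key F a ha (by linarith)) (triv _ _)).trans ?_
    rw [Nat.cast_sub hNF.le]
    linarith

end Pool.Agent.U559.NG
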